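import Pool.Agent.Zk92.VQ.Kum

/-!
# Generators of the field of invariant constants
-/

set_option autoImplicit false
set_option linter.unusedSectionVars false
set_option linter.unusedVariables false

namespace Pool.Agent.Zk92.VQ

section

variable {k K G : Type} [Field k] [Field K] [Algebra k K] [CommGroup G] [Finite G]
  (ρ : G →* (K ≃ₐ[k] K))

/-- The elements of `E` which are fixed by `G`. -/
def fixE (E : IntermediateField k K) : IntermediateField k K where
  carrier := {x | x ∈ E ∧ ∀ g, ρ g x = x}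
  mul_mem' := fun ha hb => ⟨E.mul_mem ha.1 hb.1, fun g => by rw [map_mul, ha.2, hb.2]⟩
  add_mem' := fun ha hb => ⟨E.add_mem ha.1 hb.1, fun g => by rw [map_add, ha.2, hb.2]⟩
  algebraMap_mem' := fun c => ⟨E.algebraMap_mem c, fun g => AlgEquiv.commutes _ c⟩
  inv_mem' := fun x hx => ⟨E.inv_mem hx.1, fun g => by rw [map_inv₀, hx.2]⟩

lemma mem_fixE {E : IntermediateField k K} {x : K} :
    x ∈ fixE ρ E ↔ x ∈ E ∧ ∀ g, ρ g x = x := Iff.rfl

/-- The characters with values in the `m`-th roots of unity. -/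
abbrev Chr (k G : Type) [Field k] (m : ℕ) : Type := {χ : G → k // ∀ g, χ g ^ m = 1}

lemma finite_chr {m : ℕ} (hm0 : m ≠ 0) : Finite (Chr k G m) := by
  have h1 : {c : k | c ^ m = 1}.Finite := by
    have h2 : (Polynomial.X ^ m - Polynomial.C (1 : k)) ≠ 0 :=
      Polynomial.X_pow_sub_C_ne_zero (Nat.pos_of_ne_zero hm0) 1
    refine Set.Finite.subset (Polynomial.rootSet_finite (Polynomial.X ^ m - Polynomial.C (1 : k)) k)
      fun c hc => ?_
    rw [Polynomial.mem_rootSet]
    refine ⟨h2, ?_⟩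
    have hc' : c ^ m = 1 := hc
    simp [hc']
  have h3 : Finite {c : k // c ^ m = 1} := h1
  refine Finite.of_injective (β := G → {c : k // c ^ m = 1}) (fun χ g => ⟨χ.1 g, χ.2 g⟩) ?_
  intro χ χ' h
  apply Subtype.ext
  funext g
  exact congrArg Subtype.val (congrFun h g)

/-- The character of an eigenfunction. -/
lemma exists_chr {m : ℕ} (hG : ∀ g : G, g ^ m = 1) (e : K) (he0 : e ≠ 0)
    (he : EigOn ρ Set.univ e) : ∃ χ : Chr k G m, ∀ g, ρ g e = χ.1 g • e := by
  choose c hc using fun g => he g trivial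
  refine ⟨⟨c, fun g => ?_⟩, hc⟩
  have h1 : ∀ l : ℕ, (ρ (g ^ l)) e = (c g) ^ l • e := by
    intro l
    induction l with
    | zero => rw [pow_zero, map_one, pow_zero, one_smul]; rfl
    | succ l ih => rw [pow_succ, map_mul, AlgEquiv.mul_apply, hc, map_smul, ih, smul_smul,
        pow_succ, mul_comm]
  have h2 := h1 m
  rw [hG, map_one, AlgEquiv.one_apply] at h2
  have h3 : ((c g) ^ m - 1) • e = 0 := by rw [sub_smul, ← h2, one_smul, sub_self]
  exact sub_eq_zero.1 ((smul_eq_zero.1 h3).resolve_right he0)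

lemma div_mem_fixE {E : IntermediateField k K} {e e' : K} (he : e ∈ E) (he' : e' ∈ E)
    (he0' : e' ≠ 0) (χ : G → k) (hχ : ∀ g, χ g ≠ 0) (h : ∀ g, ρ g e = χ g • e)
    (h' : ∀ g, ρ g e' = χ g • e') : e / e' ∈ fixE ρ E := by
  refine ⟨E.div_mem he he', fun g => ?_⟩
  rw [map_div₀, h, h', Algebra.smul_def, Algebra.smul_def, mul_div_mul_left]
  exact (map_ne_zero _).2 (hχ g)

lemma chr_ne {m : ℕ} (hm0 : m ≠ 0) (χ : Chr k G m) (g : G) : χ.1 g ≠ 0 := by
  intro h
  have h1 := χ.2 g
  rw [h, zero_pow hm0] at h1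
  exact zero_ne_one h1

lemma EigOn.mul {s : Set G} {a b : K} (ha : EigOn ρ s a) (hb : EigOn ρ s b) :
    EigOn ρ s (a * b) := by
  intro g hg
  obtain ⟨c, hc⟩ := ha g hg
  obtain ⟨d, hd⟩ := hb g hg
  exact ⟨c * d, by rw [map_mul, hc, hd, smul_mul_smul_comm]⟩

lemma EigOn.one {s : Set G} : EigOn ρ s 1 := fun g _ => ⟨1, by rw [map_one, one_smul]⟩

lemma EigOn.pow {s : Set G} {a : K} (ha : EigOn ρ s a) (n : ℕ) : EigOn ρ s (a ^ n) := by
  induction n with
  | zero => rw [pow_zero]; exact EigOn.one ρ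
  | succ n ih => rw [pow_succ]; exact ih.mul ρ ha

lemma EigOn.prod {s : Set G} {ι : Type} (t : Finset ι) (f : ι → K) (h : ∀ i ∈ t, EigOn ρ s (f i)) :
    EigOn ρ s (∏ i ∈ t, f i) := by
  classical
  induction t using Finset.induction_on with
  | empty => rw [Finset.prod_empty]; exact EigOn.one ρ
  | insert a t ha ih =>
    rw [Finset.prod_insert ha]
    exact (h a (Finset.mem_insert_self _ _)).mul ρ (ih fun i hi => h i (Finset.mem_insert_of_mem hi))

end

section der

variable {k K : Type} [Field k] [Field K] [Algebra k K] (d : Derivation k K K)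

lemma der_pow_zero {p : ℕ} [CharP k p] {a : ℕ} (ha : p ∣ a) (x : K) : d (x ^ a) = 0 := by
  have hc : CharP K p := charP_of_injective_algebraMap (algebraMap k K).injective p
  rw [d.leibniz_pow, ← Nat.cast_smul_eq_nsmul K, (CharP.cast_eq_zero_iff K p a).2 ha, zero_smul]

lemma der_mul_zero {a b : K} (ha : d a = 0) (hb : d b = 0) : d (a * b) = 0 := by
  rw [d.leibniz, ha, hb, smul_zero, smul_zero, add_zero]

lemma der_prod_zero {ι : Type} (t : Finset ι) (f : ι → K) (h : ∀ i ∈ t, d (f i) = 0) :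
    d (∏ i ∈ t, f i) = 0 := by
  classical
  induction t using Finset.induction_on with
  | empty => rw [Finset.prod_empty]; exact d.map_one_eq_zero
  | insert a t ha ih =>
    rw [Finset.prod_insert ha]
    exact der_mul_zero d (h a (Finset.mem_insert_self _ _))
      (ih fun i hi => h i (Finset.mem_insert_of_mem hi))

/-- A derivation maps the field generated by `S` to itself, if it maps `S` to this field. -/
lemma der_adjoin_mem {S : Set K} {F : IntermediateField k K} (hF : F = IntermediateField.adjoin k S)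
    (h : ∀ x ∈ S, d x ∈ F) (x : K) (hx : x ∈ F) : d x ∈ F := by
  have h1 : x ∈ IntermediateField.adjoin k S := hF ▸ hx
  have hS : IntermediateField.adjoin k S ≤ F := hF.ge
  clear hx
  induction h1 using IntermediateField.adjoin_induction with
  | mem x hx => exact h x hx
  | algebraMap c => rw [d.map_algebraMap]; exact F.zero_mem
  | add x y hx hy ihx ihy => rw [map_add]; exact F.add_mem ihx ihy
  | inv x hx ih =>
    rw [Derivation.leibniz_inv]
    exact F.mul_mem (F.neg_mem (pow_mem (F.inv_mem (hS hx)) 2)) ih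
  | mul x y hx hy ihx ihy =>
    rw [d.leibniz]
    exact F.add_mem (F.mul_mem (hS hx) ihy) (F.mul_mem (hS hy) ihx)

end der

section main

variable {k K G : Type} [Field k] [Field K] [Algebra k K] [CommGroup G] [Finite G]
  (ρ : G →* (K ≃ₐ[k] K)) {n : ℕ} (E : Fin n → IntermediateField k K)
  (D : Fin n → Derivation k K K)

/-- The field generated by the fixed fields of the factors. -/
def fixK : IntermediateField k K := IntermediateField.adjoin k (⋃ i, (fixE ρ (E i) : Set K))

lemma fixE_le (i : Fin n) : fixE ρ (E i) ≤ fixK ρ E := fun _ hx =>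
  IntermediateField.subset_adjoin k _ (Set.mem_iUnion.2 ⟨i, hx⟩)

lemma fixK_fix (x : K) (hx : x ∈ fixK ρ E) (g : G) : ρ g x = x := by
  have h1 : fixK ρ E ≤ fixE ρ ⊤ := by
    refine IntermediateField.adjoin_le_iff.2 ?_
    intro y hy
    obtain ⟨i, hi⟩ := Set.mem_iUnion.1 hy
    exact ⟨trivial, hi.2⟩
  exact (h1 hx).2 g

/-- The element `e` of `E i` is an eigenfunction and a constant. -/
structure CE (i : Fin n) (e : K) : Prop where
  mem : e ∈ E i
  ne : e ≠ 0
  der : D i e = 0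
  eig : EigOn ρ Set.univ e

variable {ρ E D}

lemma CE.one (i : Fin n) : CE ρ E D i 1 :=
  ⟨one_mem _, one_ne_zero, (D i).map_one_eq_zero, EigOn.one ρ⟩

lemma CE.mul {i : Fin n} {a b : K} (ha : CE ρ E D i a) (hb : CE ρ E D i b) :
    CE ρ E D i (a * b) :=
  ⟨mul_mem ha.mem hb.mem, mul_ne_zero ha.ne hb.ne, der_mul_zero _ ha.der hb.der,
    ha.eig.mul ρ hb.eig⟩

variable (ρ E D)

open Classical in
/-- A chosen constant eigenfunction. -/
noncomputable def cc (m : ℕ) (i : Fin n) (χ : Chr k G m) : K :=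
  if h : ∃ e, CE ρ E D i e ∧ ∀ g, ρ g e = χ.1 g • e then h.choose else 1

lemma cc_ce (m : ℕ) (i : Fin n) (χ : Chr k G m) : CE ρ E D i (cc ρ E D m i χ) := by
  unfold cc
  split_ifs with h
  · exact h.choose_spec.1
  · exact CE.one i

variable {m : ℕ} (hm0 : m ≠ 0) (hG : ∀ g : G, g ^ m = 1)

include hm0 hG in
lemma ce_eq (i : Fin n) (e : K) (he : CE ρ E D i e) :
    ∃ χ : Chr k G m, ∃ u ∈ fixE ρ (E i), e = u * cc ρ E D m i χ := by
  obtain ⟨χ, hχ⟩ := exists_chr ρ hG e he.ne he.eig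
  have h : ∃ e, CE ρ E D i e ∧ ∀ g, ρ g e = χ.1 g • e := ⟨e, he, hχ⟩
  have h1 : cc ρ E D m i χ = h.choose := by
    unfold cc
    rw [dif_pos h]
  refine ⟨χ, e / cc ρ E D m i χ, ?_, ?_⟩
  · rw [h1]
    exact div_mem_fixE ρ he.mem h.choose_spec.1.mem h.choose_spec.1.ne χ.1 (chr_ne hm0 χ) hχ
      h.choose_spec.2
  · rw [div_mul_cancel₀]
    exact (cc_ce ρ E D m i χ).ne

/-- The products. -/
noncomputable def w0 (m : ℕ) (χ : Fin n → Chr k G m) : K := ∏ i, cc ρ E D m i (χ i)

include hm0 hG in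
lemma prod_eq (s : Fin n → K) (hs : ∀ i, CE ρ E D i (s i)) :
    ∃ χ : Fin n → Chr k G m, ∃ u ∈ fixK ρ E, ∏ i, s i = u * w0 ρ E D m χ := by
  choose χ u hu hs' using fun i => ce_eq ρ E D hm0 hG i (s i) (hs i)
  refine ⟨χ, ∏ i, u i, prod_mem fun i _ => fixE_le ρ E i (hu i), ?_⟩
  unfold w0
  rw [← Finset.prod_mul_distrib]
  exact Finset.prod_congr rfl fun i _ => hs' i

include hm0 hG in
lemma prod_mem_span (s : Fin n → K) (hs : ∀ i, CE ρ E D i (s i)) :
    ∏ i, s i ∈ Submodule.span (fixK ρ E) (Set.range (w0 ρ E D m)) := by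
  obtain ⟨χ, u, hu, h⟩ := prod_eq ρ E D hm0 hG s hs
  rw [h]
  exact Submodule.smul_mem _ (⟨u, hu⟩ : fixK ρ E) (Submodule.subset_span ⟨χ, rfl⟩)

include hm0 hG in
lemma one_mem_span : (1 : K) ∈ Submodule.span (fixK ρ E) (Set.range (w0 ρ E D m)) := by
  have := prod_mem_span ρ E D hm0 hG (fun _ => 1) fun i => CE.one i
  rwa [Finset.prod_const_one] at this

include hm0 hG in
lemma mul_mem_span (a b : K) (ha : a ∈ Submodule.span (fixK ρ E) (Set.range (w0 ρ E D m)))
    (hb : b ∈ Submodule.span (fixK ρ E) (Set.range (w0 ρ E D m))) :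
    a * b ∈ Submodule.span (fixK ρ E) (Set.range (w0 ρ E D m)) := by
  induction ha using Submodule.span_induction with
  | mem a ha =>
    obtain ⟨χ, rfl⟩ := ha
    induction hb using Submodule.span_induction with
    | mem b hb =>
      obtain ⟨χ', rfl⟩ := hb
      have h := prod_mem_span ρ E D hm0 hG
        (fun i => cc ρ E D m i (χ i) * cc ρ E D m i (χ' i)) fun i =>
          (cc_ce ρ E D m i (χ i)).mul (cc_ce ρ E D m i (χ' i))
      rw [Finset.prod_mul_distrib] at h
      exact h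
    | zero => rw [mul_zero]; exact Submodule.zero_mem _
    | add x y _ _ hx hy => rw [mul_add]; exact Submodule.add_mem _ hx hy
    | smul c x _ hx => rw [mul_smul_comm]; exact Submodule.smul_mem _ c hx
  | zero => rw [zero_mul]; exact Submodule.zero_mem _
  | add x y _ _ hx hy => rw [add_mul]; exact Submodule.add_mem _ hx hy
  | smul c x _ hx => rw [smul_mul_assoc]; exact Submodule.smul_mem _ c hx

variable {ζ : k} {p : ℕ} [CharP k p]

include hm0 hG in
lemma mem_span_E (hp : p.Prime) (hpm : ¬ p ∣ m) (hζ : IsPrimitiveRoot ζ m)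
    (hρE : ∀ g i, ∀ x ∈ E i, ρ g x ∈ E i) (i : Fin n) (x : K)
    (hx : x ∈ E i) : x ∈ Submodule.span (fixK ρ E) (Set.range (w0 ρ E D m)) := by
  classical
  have hmk : (m : k) ≠ 0 := fun h => hpm ((CharP.cast_eq_zero_iff k p m).1 h)
  have h1 := dec ρ hmk hζ hG (E i) (fun g => hρE g i) x hx
  refine AddSubmonoid.closure_induction ?_ (Submodule.zero_mem _)
    (fun a b _ _ ha hb => Submodule.add_mem _ ha hb) h1
  rintro e ⟨he, hes⟩
  by_cases he0 : e = 0
  · rw [he0]; exact Submodule.zero_mem _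
  -- exponent
  have hcop : Nat.Coprime p m := (Nat.Prime.coprime_iff_not_dvd hp).2 hpm
  let a := p ^ m.totient
  have ha : a ≡ 1 [MOD m] := Nat.ModEq.pow_totient hcop
  have hpa : p ∣ a := dvd_pow_self p (Nat.totient_pos.2 (Nat.pos_of_ne_zero hm0)).ne'
  obtain ⟨χ, hχ⟩ := exists_chr ρ hG e he0 hes
  have hχa : ∀ g, χ.1 g ^ a = χ.1 g := by
    intro g
    have h2 : χ.1 g ^ a = χ.1 g ^ (a % m) := by
      conv_lhs => rw [← Nat.div_add_mod a m, pow_add, pow_mul, χ.2 g, one_pow, one_mul]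
    have h3 : χ.1 g ^ 1 = χ.1 g ^ (1 % m) := by
      conv_lhs => rw [← Nat.div_add_mod 1 m, pow_add, pow_mul, χ.2 g, one_pow, one_mul]
    have h4 : a % m = 1 % m := ha
    rw [h2, h4, ← h3, pow_one]
  have hce : CE ρ E D i (e ^ a) :=
    ⟨pow_mem he a, pow_ne_zero a he0, der_pow_zero (D i) hpa e, hes.pow ρ a⟩
  have hu : e / e ^ a ∈ fixE ρ (E i) :=
    div_mem_fixE ρ he (pow_mem he a) (pow_ne_zero a he0) χ.1 (chr_ne hm0 χ) hχ fun g => by
      rw [map_pow, hχ, smul_pow, hχa]
  have h5 : e = (⟨e / e ^ a, fixE_le ρ E i hu⟩ : fixK ρ E) •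
      ∏ l, Function.update (fun _ => (1 : K)) i (e ^ a) l := by
    rw [Finset.prod_update_of_mem (Finset.mem_univ i), Finset.prod_const_one, mul_one]
    change e = (e / e ^ a) * e ^ a
    rw [div_mul_cancel₀ _ (pow_ne_zero a he0)]
  rw [h5]
  refine Submodule.smul_mem _ _ (prod_mem_span ρ E D hm0 hG _ fun l => ?_)
  by_cases hl : l = i
  · subst hl
    rw [Function.update_self]
    exact hce
  · rw [Function.update_of_ne hl]
    exact CE.one l

include hm0 hG in
lemma span_top (hp : p.Prime) (hpm : ¬ p ∣ m) (hζ : IsPrimitiveRoot ζ m)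
    (hρE : ∀ g i, ∀ x ∈ E i, ρ g x ∈ E i)
    (hgen : IntermediateField.adjoin k (⋃ i, (E i : Set K)) = ⊤) :
    Submodule.span (fixK ρ E) (Set.range (w0 ρ E D m)) = ⊤ := by
  have hfin : Finite (Chr k G m) := finite_chr hm0
  let S := Submodule.span (fixK ρ E) (Set.range (w0 ρ E D m))
  let A : Subalgebra (fixK ρ E) K :=
    { carrier := S
      mul_mem' := fun {a b} ha hb => mul_mem_span ρ E D hm0 hG a b ha hb
      one_mem' := one_mem_span ρ E D hm0 hG
      add_mem' := fun {a b} ha hb => S.add_mem ha hb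
      zero_mem' := S.zero_mem
      algebraMap_mem' := fun c => by
        rw [Algebra.algebraMap_eq_smul_one]
        exact S.smul_mem c (one_mem_span ρ E D hm0 hG) }
  have hfd : FiniteDimensional (fixK ρ E) S := FiniteDimensional.span_of_finite _ (Set.finite_range _)
  have hfd' : FiniteDimensional (fixK ρ E) A := hfd
  have hint : ∀ x ∈ A, IsIntegral (fixK ρ E) x := fun x hx => by
    have h1 : IsIntegral (fixK ρ E) (⟨x, hx⟩ : A) := Algebra.IsIntegral.isIntegral _
    exact h1.map A.val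
  have hinv : ∀ x ∈ A, x⁻¹ ∈ A := fun x hx =>
    A.inv_mem_of_algebraic (x := ⟨x, hx⟩) (hint x hx).isAlgebraic
  let F : IntermediateField k K :=
    { carrier := S
      mul_mem' := fun {a b} ha hb => mul_mem_span ρ E D hm0 hG a b ha hb
      add_mem' := fun {a b} ha hb => S.add_mem ha hb
      algebraMap_mem' := fun c => A.algebraMap_mem (algebraMap k (fixK ρ E) c)
      inv_mem' := hinv }
  have hF : (⊤ : IntermediateField k K) ≤ F := by
    rw [← hgen]
    refine IntermediateField.adjoin_le_iff.2 ?_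
    intro x hx
    obtain ⟨i, hi⟩ := Set.mem_iUnion.1 hx
    exact mem_span_E ρ E D hm0 hG hp hpm hζ hρE i x hi
  rw [eq_top_iff]
  intro x _
  exact hF (x := x) trivial

/-- Generators of the field of invariant constants. -/
theorem gens (hm0 : m ≠ 0) (hG : ∀ g : G, g ^ m = 1) (hp : p.Prime) (hpm : ¬ p ∣ m)
    (hζ : IsPrimitiveRoot ζ m)
    (hρE : ∀ g i, ∀ x ∈ E i, ρ g x ∈ E i) (hDE : ∀ i, ∀ x ∈ E i, D i x ∈ E i)
    (hD0 : ∀ i l, i ≠ l → ∀ x ∈ E l, D i x = 0) (hcomm : ∀ g i x, ρ g (D i x) = D i (ρ g x))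
    (hgen : IntermediateField.adjoin k (⋃ i, (E i : Set K)) = ⊤) (V : Set (Fin n → k)) :
    ∃ (r : ℕ) (w : Fin r → K), (∀ j, (∀ g, ρ g (w j) = w j) ∧
        ∃ s : Fin n → K, (∀ i, CE ρ E D i (s i)) ∧ w j = ∏ i, s i) ∧
      ∀ x : K, (∀ g, ρ g x = x) → (∀ v ∈ V, ∑ i, v i • D i x = 0) →
        x ∈ IntermediateField.adjoin k
          ({y | y ∈ fixK ρ E ∧ ∀ v ∈ V, ∑ i, v i • D i y = 0} ∪ Set.range w) := by
  classical
  have hfin : Finite (Chr k G m) := finite_chr hm0
  have hDK : ∀ i, ∀ x ∈ fixK ρ E, D i x ∈ fixK ρ E := by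
    intro i
    refine der_adjoin_mem (D i) rfl ?_
    intro x hx
    obtain ⟨l, hl⟩ := Set.mem_iUnion.1 hx
    by_cases h : i = l
    · subst h
      exact fixE_le ρ E i ⟨hDE i x hl.1, fun g => by rw [hcomm, hl.2]⟩
    · rw [hD0 i l h x hl.1]
      exact zero_mem _
  obtain ⟨b, hb, hspan, hli⟩ := exists_linearIndependent (fixK ρ E) (Set.range (w0 ρ E D m))
  rw [span_top ρ E D hm0 hG hp hpm hζ hρE hgen] at hspan
  have hbf : b.Finite := (Set.finite_range _).subset hb
  have hbF : Fintype b := hbf.fintype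
  -- properties of the basis
  have hbs : ∀ t ∈ b, ∃ s : Fin n → K, (∀ i, CE ρ E D i (s i)) ∧ t = ∏ i, s i := by
    intro t ht
    obtain ⟨χ, rfl⟩ := hb ht
    exact ⟨_, fun i => cc_ce ρ E D m i (χ i), rfl⟩
  have hbD : ∀ t ∈ b, ∀ i, D i t = 0 := by
    intro t ht i
    obtain ⟨s, hs, rfl⟩ := hbs t ht
    refine der_prod_zero _ _ _ fun l _ => ?_
    by_cases h : i = l
    · subst h; exact (hs i).der
    · exact hD0 i l h _ (hs l).mem
  have hb0 : ∀ t ∈ b, t ≠ 0 := by
    intro t ht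
    obtain ⟨s, hs, rfl⟩ := hbs t ht
    exact Finset.prod_ne_zero_iff.2 fun l _ => (hs l).ne
  have hbe : ∀ t ∈ b, EigOn ρ Set.univ t := by
    intro t ht
    obtain ⟨s, hs, rfl⟩ := hbs t ht
    exact EigOn.prod ρ _ _ fun l _ => (hs l).eig
  let b' : Set K := {t ∈ b | ∀ g, ρ g t = t}
  have hb'f : b'.Finite := hbf.subset fun t ht => ht.1
  have hb'F : Fintype b' := hb'f.fintype
  let ε := Fintype.equivFin b'
  refine ⟨Fintype.card b', fun j => (ε.symm j).1, fun j => ⟨(ε.symm j).2.2, hbs _ (ε.symm j).2.1⟩,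
    fun x hxg hxD => ?_⟩
  have hx : x ∈ Submodule.span (fixK ρ E) (Set.range ((↑) : b → K)) := by
    rw [Subtype.range_coe, hspan]; trivial
  obtain ⟨c, hc⟩ := (Submodule.mem_span_range_iff_exists_fun (fixK ρ E)).1 hx
  -- the coefficients
  have hcg : ∀ g, ∀ t : b, c t ≠ 0 → ρ g (t : K) = t := by
    intro g
    choose χ hχ using fun t : b => hbe t t.2 g trivial
    have h1 : ∑ t : b, (c t * (algebraMap k (fixK ρ E) (χ t) - 1)) • (t : K) = 0 := by
      have h2 : ρ g x = ∑ t : b, (c t * algebraMap k (fixK ρ E) (χ t)) • (t : K) := by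
        rw [← hc, map_sum]
        refine Finset.sum_congr rfl fun t _ => ?_
        change ρ g ((c t : K) * (t : K)) = ((c t : K) * algebraMap k K (χ t)) * (t : K)
        rw [map_mul, fixK_fix ρ E _ (c t).2, hχ, Algebra.smul_def, mul_assoc]
      have h3 : ∑ t : b, (c t * (algebraMap k (fixK ρ E) (χ t) - 1)) • (t : K) =
          ∑ t : b, (c t * algebraMap k (fixK ρ E) (χ t)) • (t : K) - ∑ t : b, c t • (t : K) := by
        rw [← Finset.sum_sub_distrib]
        refine Finset.sum_congr rfl fun t _ => ?_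
        rw [← sub_smul, mul_sub, mul_one]
      rw [h3, ← h2, hc, hxg, sub_self]
    intro t ht
    have h4 := (Fintype.linearIndependent_iff.1 hli) _ h1 t
    have h5 := (mul_eq_zero.1 h4).resolve_left ht
    have h6 : algebraMap k (fixK ρ E) (χ t) = algebraMap k (fixK ρ E) 1 := by
      rw [map_one]; exact sub_eq_zero.1 h5
    rw [hχ, (algebraMap k (fixK ρ E)).injective h6, one_smul]
  have hcD : ∀ v ∈ V, ∀ t : b, ∑ i, v i • D i (c t : K) = 0 := by
    intro v hv
    have h1 : ∑ t : b, (⟨∑ i, v i • D i (c t : K), sum_mem fun i _ =>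
        IntermediateField.smul_mem _ (hDK i _ (c t).2)⟩ : fixK ρ E) • (t : K) = 0 := by
      have h2 := hxD v hv
      rw [← hc] at h2
      have h3 : ∀ i, D i (∑ t : b, c t • (t : K)) = ∑ t : b, (D i (c t : K)) * (t : K) := by
        intro i
        rw [map_sum]
        refine Finset.sum_congr rfl fun t _ => ?_
        change D i ((c t : K) * (t : K)) = _
        rw [(D i).leibniz, hbD t t.2, smul_zero, zero_add, smul_eq_mul, mul_comm]
      rw [← h2]
      have h4 : ∑ i, v i • D i (∑ t : b, c t • (t : K)) =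
          ∑ t : b, ∑ i, v i • ((D i (c t : K)) * (t : K)) := by
        rw [Finset.sum_comm]
        refine Finset.sum_congr rfl fun i _ => ?_
        rw [h3, Finset.smul_sum]
      rw [h4]
      refine Finset.sum_congr rfl fun t _ => ?_
      change (∑ i, v i • D i (c t : K)) * (t : K) = _
      rw [Finset.sum_mul]
      exact Finset.sum_congr rfl fun i _ => smul_mul_assoc _ _ _
    intro t
    have h5 := (Fintype.linearIndependent_iff.1 hli) _ h1 t
    exact congrArg (Subtype.val) h5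
  rw [← hc]
  refine sum_mem fun t _ => ?_
  change (c t : K) * (t : K) ∈ _
  by_cases h0 : c t = 0
  · rw [h0]
    change (0 : K) * (t : K) ∈ _
    rw [zero_mul]
    exact zero_mem _
  · refine mul_mem (IntermediateField.subset_adjoin k _ (Or.inl ⟨(c t).2, fun v hv => hcD v hv t⟩))
      (IntermediateField.subset_adjoin k _ (Or.inr ⟨ε ⟨t, t.2, fun g => hcg g t h0⟩, ?_⟩))
    simp

end main

end Pool.Agent.Zk92.VQ
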