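import Mathlib

/-!
# Simultaneous eigenfunctions which are constants of derivations
-/

set_option autoImplicit false
set_option linter.unusedSectionVars false
set_option linter.unusedVariables false

namespace Pool.Agent.Zk92.VQ

variable {k K G : Type} [Field k] [Field K] [Algebra k K] [CommGroup G] [Finite G]
  (ρ : G →* (K ≃ₐ[k] K))

/-- `e` is an eigenfunction of `g` for all `g ∈ s`. -/
def EigOn (s : Set G) (e : K) : Prop := ∀ g ∈ s, ∃ c : k, ρ g e = c • e

/-- The projection to the eigenspace of `g`. -/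
noncomputable def prj (m : ℕ) (ζ : k) (g : G) (j : ℕ) (e : K) : K :=
  ∑ l ∈ Finset.range m, (ζ⁻¹ ^ (j * l)) • ρ (g ^ l) e

variable {m : ℕ} {ζ : k}

lemma zeta_ne (hm : (m : k) ≠ 0) (hζ : IsPrimitiveRoot ζ m) : ζ ≠ 0 := by
  rintro rfl
  have h := hζ.pow_eq_one
  rcases Nat.eq_zero_or_pos m with h0 | h0
  · apply hm
    rw [h0, Nat.cast_zero]
  · rw [zero_pow h0.ne'] at h
    exact zero_ne_one h

lemma sum_prj (hm : (m : k) ≠ 0) (hζ : IsPrimitiveRoot ζ m) (g : G) (e : K) :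
    ∑ j ∈ Finset.range m, prj ρ m ζ g j e = (m : k) • e := by
  unfold prj
  rw [Finset.sum_comm]
  have hm0 : 0 < m := Nat.pos_of_ne_zero fun h => hm (by rw [h, Nat.cast_zero])
  rw [Finset.sum_eq_single_of_mem 0 (Finset.mem_range.2 hm0)]
  · simp only [mul_zero, pow_zero, map_one, AlgEquiv.one_apply, one_smul, Finset.sum_const,
      Finset.card_range]
    rw [← Nat.cast_smul_eq_nsmul k]
  · intro l hl hl0
    rw [← Finset.sum_smul]
    have h1 : ∑ j ∈ Finset.range m, ζ⁻¹ ^ (j * l) = 0 := by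
      have h2 : ∀ j ∈ Finset.range m, ζ⁻¹ ^ (j * l) = (ζ⁻¹ ^ l) ^ j := fun j _ => by
        rw [← pow_mul, mul_comm]
      rw [Finset.sum_congr rfl h2]
      have h3 : ζ⁻¹ ^ l ≠ 1 := by
        intro h
        rw [inv_pow, inv_eq_one] at h
        exact hl0 (Nat.eq_zero_of_dvd_of_lt (hζ.dvd_of_pow_eq_one l h) (Finset.mem_range.1 hl))
      have h4 : (ζ⁻¹ ^ l) ^ m = 1 := by
        rw [← pow_mul, mul_comm, pow_mul, inv_pow, hζ.pow_eq_one, inv_one, one_pow]
      have h5 := geom_sum_mul (ζ⁻¹ ^ l) m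
      rw [h4, sub_self] at h5
      exact (mul_eq_zero.1 h5).resolve_right (sub_ne_zero.2 h3)
    rw [h1, zero_smul]

lemma prj_eig (hm : (m : k) ≠ 0) (hζ : IsPrimitiveRoot ζ m) (hG : ∀ g : G, g ^ m = 1) (g : G)
    (j : ℕ) (e : K) : ρ g (prj ρ m ζ g j e) = ζ ^ j • prj ρ m ζ g j e := by
  have hz := zeta_ne hm hζ
  unfold prj
  rw [map_sum, Finset.smul_sum]
  have h1 : ∀ l, ρ g ((ζ⁻¹ ^ (j * l)) • ρ (g ^ l) e) =
      ζ ^ j • ((ζ⁻¹ ^ (j * (l + 1))) • ρ (g ^ (l + 1)) e) := by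
    intro l
    rw [map_smul, smul_smul, pow_succ' g l, map_mul, AlgEquiv.mul_apply]
    congr 1
    rw [mul_add, mul_one, pow_add, mul_comm (ζ⁻¹ ^ (j * l)), ← mul_assoc, ← mul_pow,
      mul_inv_cancel₀ hz, one_pow, one_mul]
  rw [Finset.sum_congr rfl fun l _ => h1 l, ← Finset.smul_sum, ← Finset.smul_sum]
  congr 1
  have h2 := Finset.sum_range_succ (fun l => (ζ⁻¹ ^ (j * l)) • ρ (g ^ l) e) m
  have h3 := Finset.sum_range_succ' (fun l => (ζ⁻¹ ^ (j * l)) • ρ (g ^ l) e) m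
  have h4 : (ζ⁻¹ ^ (j * m)) • ρ (g ^ m) e = (ζ⁻¹ ^ (j * 0)) • ρ (g ^ 0) e := by
    rw [hG, mul_comm j m, pow_mul, inv_pow, hζ.pow_eq_one, inv_one, one_pow, mul_zero, pow_zero,
      pow_zero]
  rw [h2, h4] at h3
  exact (add_right_cancel h3).symm

lemma prj_comm (g h : G) (j : ℕ) (e : K) (c : k) (he : ρ h e = c • e) :
    ρ h (prj ρ m ζ g j e) = c • prj ρ m ζ g j e := by
  unfold prj
  rw [map_sum, Finset.smul_sum]
  refine Finset.sum_congr rfl fun l _ => ?_
  rw [map_smul, smul_comm c]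
  congr 1
  rw [← AlgEquiv.mul_apply, ← map_mul, mul_comm, map_mul, AlgEquiv.mul_apply, he, map_smul]

lemma prj_mem (E : IntermediateField k K) (hE : ∀ g, ∀ x ∈ E, ρ g x ∈ E) (g : G) (j : ℕ) (e : K)
    (he : e ∈ E) : prj ρ m ζ g j e ∈ E :=
  sum_mem fun l _ => E.smul_mem (hE _ _ he)

/-- Every element is a sum of eigenfunctions. -/
theorem dec (hm : (m : k) ≠ 0) (hζ : IsPrimitiveRoot ζ m) (hG : ∀ g : G, g ^ m = 1)
    (E : IntermediateField k K) (hE : ∀ g, ∀ x ∈ E, ρ g x ∈ E) (x : K) (hx : x ∈ E) :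
    x ∈ AddSubmonoid.closure {e : K | e ∈ E ∧ EigOn ρ Set.univ e} := by
  classical
  have := Fintype.ofFinite G
  have key : ∀ s : Finset G, ∀ x ∈ E,
      x ∈ AddSubmonoid.closure {e : K | e ∈ E ∧ EigOn ρ (s : Set G) e} := by
    intro s
    induction s using Finset.induction_on with
    | empty =>
      intro x hx
      exact AddSubmonoid.subset_closure ⟨hx, fun g hg => by simp at hg⟩
    | insert g s hg ih =>
      intro x hx
      have h1 := ih x hx
      refine AddSubmonoid.closure_induction ?_ (zero_mem _) (fun a b _ _ ha hb => add_mem ha hb) h1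
      rintro e ⟨he, hes⟩
      have h2 : e = ∑ j ∈ Finset.range m, ((m : k)⁻¹ • prj ρ m ζ g j e) := by
        rw [← Finset.smul_sum, sum_prj ρ hm hζ, smul_smul, inv_mul_cancel₀ hm, one_smul]
      rw [h2]
      refine sum_mem fun j _ => AddSubmonoid.subset_closure
        ⟨E.smul_mem (prj_mem ρ E hE g j e he), ?_⟩
      intro h hh
      rcases Finset.mem_insert.1 (Finset.mem_coe.1 hh) with rfl | hh
      · exact ⟨ζ ^ j, by rw [map_smul, prj_eig ρ hm hζ hG, smul_comm]⟩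
      · obtain ⟨c, hc⟩ := hes h hh
        exact ⟨c, by rw [map_smul, prj_comm ρ g h j e c hc, smul_comm]⟩
  have h := key Finset.univ x hx
  rwa [Finset.coe_univ] at h

end Pool.Agent.Zk92.VQ
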