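import Pool.Agent.Zk92.VQ.Gen
import Pool.Agent.TH188.VQ.Fin
import Pool.Agent.N762.FP.Root2

/-!
# Log smooth models of fields of invariant constants
-/

set_option autoImplicit false
set_option linter.unusedSectionVars false
set_option linter.unusedVariables false

open Pool.Agent.W558 Pool.Agent.N98 Pool.Agent.TH188.WP Pool.Agent.TH188.WQ Pool.Agent.TH188.VQ
  TensorProduct

namespace Pool.Agent.Zk92.VQ

section

variable {k K G : Type} [Field k] [Field K] [Algebra k K] [CommGroup G] [Finite G]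
  (ρ : G →* (K ≃ₐ[k] K)) {n : ℕ} (E : Fin n → IntermediateField k K)
  (D : Fin n → Derivation k K K)

/-- The fixed field of the factor as a subfield of the compositum. -/
def subE (i : Fin n) : IntermediateField k (fixK ρ E) := (fixE ρ (E i)).comap (fixK ρ E).val

lemma mem_subE {i : Fin n} {x : fixK ρ E} : x ∈ subE ρ E i ↔ (x : K) ∈ fixE ρ (E i) := Iff.rfl

/-- The two fields are isomorphic. -/
noncomputable def eqS (i : Fin n) : subE ρ E i ≃ₐ[k] fixE ρ (E i) :=
  AlgEquiv.ofBijective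
    (((fixK ρ E).val.comp (subE ρ E i).val).codRestrict (fixE ρ (E i)).toSubalgebra
      fun x => x.2) (by
    constructor
    · intro x y hxy
      have h3 : (((x : fixK ρ E)) : K) = ((y : fixK ρ E) : K) :=
        congrArg (fun z : fixE ρ (E i) => (z : K)) hxy
      exact Subtype.ext (Subtype.ext h3)
    · rintro ⟨y, hy⟩
      exact ⟨⟨⟨y, fixE_le ρ E i hy⟩, hy⟩, rfl⟩)

variable (hdis : Function.Injective (mulHom E))

include hdis in
lemma dis_fix : Function.Injective (mulHom fun i => fixE ρ (E i)) := by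
  refine mulHomInj k K n (fun i => E i) (mulHom E) hdis _ fun i x hx => ⟨⟨x, hx.1⟩, 1, ?_, ?_⟩
  · rw [mulHom_single]
    exact one_ne_zero
  · rw [mulHom_single, mulHom_single]
    exact mul_one x

include hdis in
lemma dis_sub : Function.Injective (mulHom (subE ρ E)) := by
  let φ : (⨂[k] i, fixE ρ (E i)) →ₐ[k] fixK ρ E :=
    (mulHom fun i => fixE ρ (E i)).codRestrict (fixK ρ E).toSubalgebra
      (mulHom_mem fun i => fixE ρ (E i))
  have hφ : Function.Injective φ := fun x y h =>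
    dis_fix ρ E hdis (congrArg (fun z : fixK ρ E => (z : K)) h)
  refine mulHomInj k (fixK ρ E) n (fun i => fixE ρ (E i)) φ hφ _ fun i x hx =>
    ⟨⟨x, hx⟩, 1, ?_, ?_⟩
  · intro h
    have h1 := congrArg (fun z : fixK ρ E => (z : K)) h
    change mulHom (fun i => fixE ρ (E i)) _ = 0 at h1
    rw [mulHom_single] at h1
    exact one_ne_zero h1
  · apply Subtype.ext
    change (x : K) * mulHom (fun i => fixE ρ (E i)) _ = mulHom (fun i => fixE ρ (E i)) _
    rw [mulHom_single, mulHom_single]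
    exact mul_one _

lemma cps_sub : cps (subE ρ E) = ⊤ := by
  apply IntermediateField.lift_injective (fixK ρ E)
  rw [IntermediateField.lift_top]
  unfold cps
  rw [IntermediateField.lift_adjoin]
  change _ = IntermediateField.adjoin k (⋃ i, (fixE ρ (E i) : Set K))
  congr 1
  rw [Set.image_iUnion]
  refine Set.iUnion_congr fun i => ?_
  ext x
  constructor
  · rintro ⟨y, hy, rfl⟩
    exact hy
  · intro hx
    exact ⟨⟨x, fixE_le ρ E i hx⟩, hx, rfl⟩

variable (hDE : ∀ i, ∀ x ∈ E i, D i x ∈ E i)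
    (hD0 : ∀ i l, i ≠ l → ∀ x ∈ E l, D i x = 0) (hcomm : ∀ g i x, ρ g (D i x) = D i (ρ g x))

include hDE hD0 hcomm in
lemma der_fixK (i : Fin n) (x : K) (hx : x ∈ fixK ρ E) : D i x ∈ fixK ρ E := by
  refine der_adjoin_mem (D i) rfl ?_ x hx
  intro x hx
  obtain ⟨l, hl⟩ := Set.mem_iUnion.1 hx
  by_cases h : i = l
  · subst h
    exact fixE_le ρ E i ⟨hDE i x hl.1, fun g => by rw [hcomm, hl.2]⟩
  · rw [hD0 i l h x hl.1]
    exact zero_mem _

/-- The restriction of the derivation. -/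
def subD (i : Fin n) : Derivation k (fixK ρ E) (fixK ρ E) :=
  resD (fixK ρ E) (D i) (der_fixK ρ E D hDE hD0 hcomm i)

lemma subD_coe (i : Fin n) (x : fixK ρ E) :
    (subD ρ E D hDE hD0 hcomm i x : K) = D i x := rfl

/-- The product constants. -/
def PN (N : IntermediateField k K) : Set N :=
  {y | ∃ s : Fin n → K, (∀ i, s i ∈ E i ∧ D i (s i) = 0 ∧ EigOn ρ Set.univ (s i)) ∧
    (y : K) = ∏ i, s i}

include hdis hDE hD0 hcomm in
theorem mod_inv (p : ℕ) [Fact p.Prime] [PerfectField k] [CharP k p] {m : ℕ} {ζ : k} (hm0 : m ≠ 0)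
    (hpm : ¬ p ∣ m) (hζ : IsPrimitiveRoot ζ m) (hG : ∀ g : G, g ^ m = 1)
    (h2 : ∀ i, Algebra.trdeg k (fixE ρ (E i)) = 2) (hM : ∀ i, HasModel k (fixE ρ (E i)))
    (hgen : cps E = ⊤) (hρE : ∀ g i, ∀ x ∈ E i, ρ g x ∈ E i)
    (hDp : (∀ i, ∀ x ∈ E i, (D i)^[p] x = 0) ∨ ∃ μ : Fin n → k, (∀ i, μ i ≠ 0) ∧
      ∀ i, ∀ x ∈ E i, (D i)^[p] x = μ i ^ (p - 1) • D i x) (V : Set (Fin n → k))
    (N : IntermediateField k K)
    (hN : ∀ x, x ∈ N ↔ (∀ g, ρ g x = x) ∧ ∀ v ∈ V, ∑ i, v i • D i x = 0) :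
    Pool.Agent.N762.FP.Mod k (PN ρ E D N) := by
  classical
  have hp : p.Prime := Fact.out
  let D' := subD ρ E D hDE hD0 hcomm
  let L0 : IntermediateField k (fixK ρ E) := cstF D' V
  have hsum : ∀ (v : Fin n → k) (x : fixK ρ E),
      ((∑ i, v i • D' i x : fixK ρ E) : K) = ∑ i, v i • D i (x : K) := by
    intro v x
    rw [IntermediateField.coe_sum]
    rfl
  have hL0 : ∀ x : fixK ρ E, x ∈ L0 ↔ ∀ v ∈ V, ∑ i, v i • D i (x : K) = 0 := by
    intro x
    refine forall₂_congr fun v hv => ?_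
    rw [← hsum]
    exact ⟨fun h => by rw [h]; rfl, fun h => Subtype.ext h⟩
  let P0 : Set L0 := {y | ∃ s : Fin n → fixK ρ E, (∀ i, s i ∈ subE ρ E i ∧ D' i (s i) = 0) ∧
    (y : fixK ρ E) = ∏ i, s i}
  have hit : ∀ i (x : fixK ρ E) (l : ℕ), (((D' i)^[l] x : fixK ρ E) : K) = (D i)^[l] (x : K) := by
    intro i x l
    induction l with
    | zero => rfl
    | succ l ih => rw [Function.iterate_succ_apply', Function.iterate_succ_apply', ← ih]; rfl
  have hmod0 : Pool.Agent.N762.FP.Mod k P0 := by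
    intro B _ b hb hb0
    obtain ⟨T, I, hT, hI, M, Γ, hF, hfr⟩ := exists_model_fld p (subE ρ E) D' mulHomInj
      (fun i => (eqS ρ E i).trdeg_eq.trans (h2 i))
      (fun i => hasModel_of_equiv (eqS ρ E i).symm (hM i)) (dis_sub ρ E hdis) (cps_sub ρ E)
      (fun i x hx => ⟨hDE i x hx.1, fun g => by
        change ρ g (D i x) = D i x
        rw [hcomm]
        exact congrArg (D i) (hx.2 g)⟩)
      (fun i l hil x hx => Subtype.ext (hD0 i l hil x hx.1))
      (hDp.imp (fun h i x hx => Subtype.ext (by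
          rw [hit, h i x hx.1]; rfl))
        (fun ⟨μ, hμ, h⟩ => ⟨μ, hμ, fun i x hx => Subtype.ext (by
          rw [hit, h i x hx.1]; rfl)⟩)) V L0 (fun x => Iff.rfl) B b hb0 hb
    exact ⟨T, I, hT, hI, M, hfr, fun i => IsB.br ⟨Γ i, fun t => hF i t⟩⟩
  obtain ⟨r, w, hw, hx⟩ := gens ρ E D hm0 hG hp hpm hζ hρE hDE hD0 hcomm hgen V
  have hL0N : ∀ y : L0, ((y : fixK ρ E) : K) ∈ N := fun y =>
    (hN _).2 ⟨fun g => fixK_fix ρ E _ (y : fixK ρ E).2 g, (hL0 _).1 y.2⟩
  let φ : L0 →ₐ[k] N := ((fixK ρ E).val.comp L0.val).codRestrict N.toSubalgebra hL0N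
  let aL : Algebra L0 N := φ.toRingHom.toAlgebra
  have hmap : ∀ y : L0, ((algebraMap L0 N y : N) : K) = ((y : fixK ρ E) : K) := fun y => rfl
  have tL : IsScalarTower k L0 N := IsScalarTower.of_algebraMap_eq fun c => (φ.commutes c).symm
  have hwD : ∀ j, ∀ v ∈ V, ∑ i, v i • D i (w j) = 0 := by
    intro j v hv
    obtain ⟨s, hs, hw'⟩ := (hw j).2
    refine Finset.sum_eq_zero fun i _ => ?_
    have h1 : D i (w j) = 0 := by
      rw [hw']
      refine der_prod_zero _ _ _ fun l _ => ?_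
      by_cases h : i = l
      · subst h; exact (hs i).der
      · exact hD0 i l h _ (hs l).mem
    rw [h1, smul_zero]
  let w' : Fin r → N := fun j => ⟨w j, (hN _).2 ⟨(hw j).1, hwD j⟩⟩
  -- powers
  have hpow : ∀ (y : N), y ∈ PN ρ E D N → y ≠ 0 → ∃ z ∈ P0, y ^ m = algebraMap L0 N z := by
    rintro y ⟨s, hs, hy⟩ hy0
    have hs0 : ∀ i, s i ≠ 0 := fun i h => hy0 (Subtype.ext (by
      rw [hy]
      exact Finset.prod_eq_zero (Finset.mem_univ i) h))
    have h1 : ∀ i, s i ^ m ∈ fixE ρ (E i) := by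
      intro i
      refine ⟨pow_mem (hs i).1 m, fun g => ?_⟩
      obtain ⟨χ, hχ⟩ := exists_chr ρ hG (s i) (hs0 i) (hs i).2.2
      rw [map_pow, hχ, smul_pow, χ.2, one_smul]
    have h3 : ∀ i, D i (s i ^ m) = 0 := fun i => by
      rw [(D i).leibniz_pow, (hs i).2.1, smul_zero, smul_zero]
    let t : Fin n → fixK ρ E := fun i => ⟨s i ^ m, fixE_le ρ E i (h1 i)⟩
    have h4 : ((∏ i, t i : fixK ρ E) : K) = (y : K) ^ m := by
      rw [IntermediateField.coe_prod, hy, ← Finset.prod_pow]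
    have h5 : (∏ i, t i) ∈ L0 := by
      rw [hL0]
      intro v hv
      refine Finset.sum_eq_zero fun i _ => ?_
      have h6 : D i ((∏ i, t i : fixK ρ E) : K) = 0 := by
        rw [IntermediateField.coe_prod]
        refine der_prod_zero _ _ _ fun l _ => ?_
        by_cases h : i = l
        · subst h; exact h3 i
        · exact hD0 i l h _ (h1 l).1
      rw [h6, smul_zero]
    refine ⟨⟨∏ i, t i, h5⟩, ⟨t, fun i => ⟨h1 i, Subtype.ext (h3 i)⟩, rfl⟩, ?_⟩
    apply Subtype.ext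
    rw [hmap]
    exact h4.symm
  have hwP : ∀ j, w' j ∈ PN ρ E D N := fun j => by
    obtain ⟨s, hs, hw'⟩ := (hw j).2
    exact ⟨s, fun i => ⟨(hs i).mem, (hs i).der, (hs i).eig⟩, hw'⟩
  have hw0 : ∀ j, w' j ≠ 0 := by
    intro j h
    obtain ⟨s, hs, hw'⟩ := (hw j).2
    have h1 : w j = 0 := congrArg (fun z : N => (z : K)) h
    rw [hw'] at h1
    exact Finset.prod_ne_zero_iff.2 (fun i _ => (hs i).ne) h1
  have htop : IntermediateField.adjoin L0 (Set.range w') = ⊤ := by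
    rw [eq_top_iff]
    intro x _
    have h1 := hx x ((hN _).1 x.2).1 ((hN _).1 x.2).2
    let F : IntermediateField k N :=
      (IntermediateField.adjoin L0 (Set.range w')).restrictScalars k
    have h2 : IntermediateField.adjoin k
        ({y | y ∈ fixK ρ E ∧ ∀ v ∈ V, ∑ i, v i • D i y = 0} ∪ Set.range w) ≤
        IntermediateField.lift F := by
      refine IntermediateField.adjoin_le_iff.2 ?_
      rintro y (⟨hy, hyv⟩ | ⟨j, rfl⟩)
      · have h3 : (⟨y, hy⟩ : fixK ρ E) ∈ L0 := (hL0 _).2 hyv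
        have h4 := (IntermediateField.adjoin L0 (Set.range w')).algebraMap_mem ⟨_, h3⟩
        exact (IntermediateField.mem_lift (F := N) (algebraMap L0 N ⟨_, h3⟩)).2 h4
      · exact (IntermediateField.mem_lift (F := N) (w' j)).2
          (IntermediateField.subset_adjoin L0 _ ⟨j, rfl⟩)
    exact (IntermediateField.mem_lift x).1 (h2 h1)
  have hmod1 := Pool.Agent.N762.FP.mod_rad p hmod0 w' hw0 (fun _ => m) (fun _ => hpm)
    (fun j => by
      obtain ⟨z, hz, h⟩ := hpow (w' j) (hwP j) (hw0 j)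
      exact ⟨z, hz, h⟩) htop
  refine Pool.Agent.N762.FP.mod_sat hmod1 fun z hz hz0 => ⟨m, hm0, 1, 1, ?_⟩
  obtain ⟨z', hz', h⟩ := hpow z hz hz0
  refine ⟨fun _ => algebraMap L0 N z', fun _ => 1, fun _ => Or.inl ⟨z', hz', rfl⟩, ?_⟩
  rw [map_one, one_mul, Fin.prod_univ_one, zpow_one, h]

end

end Pool.Agent.Zk92.VQ
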